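import Mathlib

/-! Project ES, module TWN: inequalities between monomials. -/

set_option autoImplicit false

namespace Pool.Agent.Helper78.ES.TWN

/-- largeness -/
theorem big (c : ℝ) (K : ℕ) (δ : ℝ) (hδ : 0 < δ) : ∃ C₁ : ℝ, 1 ≤ C₁ ∧ ∀ C : ℝ, C₁ ≤ C →
    ∀ X y : ℝ, 1 ≤ X → C * X ^ C < y → c * X ^ K < y ^ δ := by
  refine ⟨max 1 (max ((|c| + 1) ^ (1 / δ)) (K / δ)), le_max_left _ _, fun C hC X y hX hy => ?_⟩
  have h1 : 1 ≤ C := (le_max_left _ _).trans hC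
  have h2 : (|c| + 1) ^ (1 / δ) ≤ C := ((le_max_left _ _).trans (le_max_right _ _)).trans hC
  have h3 : (K : ℝ) / δ ≤ C := ((le_max_right _ _).trans (le_max_right _ _)).trans hC
  have hC0 : 0 < C := by linarith
  have hX0 : 0 < X := by linarith
  have h4 : |c| + 1 ≤ C ^ δ := by
    have := Real.rpow_le_rpow (by positivity) h2 hδ.le
    rwa [← Real.rpow_mul (by positivity), one_div_mul_cancel hδ.ne', Real.rpow_one] at this
  have h5 : X ^ K ≤ (X ^ C) ^ δ := by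
    rw [← Real.rpow_mul hX0.le, ← Real.rpow_natCast]
    apply Real.rpow_le_rpow_of_exponent_le hX
    rw [div_le_iff₀ hδ] at h3
    exact h3
  have h6 : (C * X ^ C) ^ δ < y ^ δ := Real.rpow_lt_rpow (by positivity) hy hδ
  rw [Real.mul_rpow hC0.le (by positivity)] at h6
  have h7 : c * X ^ K ≤ (|c| + 1) * X ^ K := by
    apply mul_le_mul_of_nonneg_right _ (by positivity)
    linarith [le_abs_self c]
  calc c * X ^ K ≤ (|c| + 1) * X ^ K := h7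
    _ ≤ C ^ δ * (X ^ C) ^ δ := mul_le_mul h4 h5 (by positivity) (by positivity)
    _ < y ^ δ := h6

section
variable {C₀ CH c c₂ c₃ a X lam L W s D d : ℝ}

theorem spd {θ : ℝ} (hX : 1 ≤ X) (hlam : 1 / X ≤ lam) (hc : 1 ≤ c) (hC₀ : 1 ≤ C₀) (hs : 1 ≤ s)
    (hsW : s ^ 2 ≤ W) (hθ : s / W ≤ 36 * X * θ) (hL0 : 0 < L) (hL : L ≤ c * X)
    (hc₂ : 36 * c * C₀ ≤ c₂) : C₀ * (s ^ 3 / (W ^ 2 * X ^ 13 * c₂)) ≤ lam ^ 2 * θ / L := by
  have hW : 0 < W := by nlinarith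
  have hc0 : 0 < c := by linarith
  have hX0 : 0 < X := by linarith
  have hc₂0 : 0 < c₂ := by nlinarith [mul_pos hc0 (by linarith : (0:ℝ) < C₀)]
  have hlam0 : 0 < lam := lt_of_lt_of_le (by positivity) hlam
  have hs0 : 0 < s := by linarith
  have hθ1 : s / (36 * X * W) ≤ θ := by
    rw [div_le_iff₀ (by positivity)]
    rw [div_le_iff₀ hW] at hθ
    linarith
  have h1 : (1 / X) ^ 2 * (s / (36 * X * W)) / (c * X) ≤ lam ^ 2 * θ / L := by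
    have : 0 < θ := lt_of_lt_of_le (by positivity) hθ1
    gcongr
  refine le_trans ?_ h1
  have e1 : (1 / X) ^ 2 * (s / (36 * X * W)) / (c * X) = s / (36 * c * W * X ^ 4) := by
    field_simp
  rw [e1]
  have h2 : C₀ * (s ^ 3 / (W ^ 2 * X ^ 13 * c₂)) ≤ C₀ * (s ^ 3 / (W ^ 2 * X ^ 13 * (36 * c * C₀))) := by
    gcongr
  refine h2.trans ?_
  have e2 : C₀ * (s ^ 3 / (W ^ 2 * X ^ 13 * (36 * c * C₀))) =
      s ^ 2 * (s / (36 * c * W * X ^ 4)) / (W * X ^ 9) := by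
    field_simp
  rw [e2, div_le_iff₀ (by positivity)]
  have h3 : s ^ 2 ≤ W * X ^ 9 := by
    calc s ^ 2 ≤ W := hsW
      _ = W * 1 := (mul_one _).symm
      _ ≤ W * X ^ 9 := by gcongr; exact one_le_pow₀ hX
  calc s ^ 2 * (s / (36 * c * W * X ^ 4)) ≤ (W * X ^ 9) * (s / (36 * c * W * X ^ 4)) := by gcongr
    _ = _ := by ring

theorem one_add_le {E a X V t : ℝ} (hX : 1 ≤ X) (hV : 0 < V) (ht : 0 < t) (htV : t ≤ V)
    (hE : E ≤ a * X ^ 2 / t) : 1 + V * E ≤ (1 + a) * X ^ 2 * (V / t) := by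
  have h1 : V * E ≤ V * (a * X ^ 2 / t) := mul_le_mul_of_nonneg_left hE hV.le
  have h2 : 1 ≤ X ^ 2 * (V / t) := by
    have h3 : 1 ≤ X ^ 2 := one_le_pow₀ hX
    have h4 : 1 ≤ V / t := (one_le_div ht).2 htV
    nlinarith
  have e : V * (a * X ^ 2 / t) = a * (X ^ 2 * (V / t)) := by ring
  rw [e] at h1
  linarith

theorem spa {θ E μ G : ℝ} (hX : 1 ≤ X) (hlam : 1 / X ≤ lam) (hc : 1 ≤ c) (hC₀ : 1 ≤ C₀)
    (ha : 0 ≤ a) (hs : 1 ≤ s) (hsW : s ≤ W) (hθ : s / W ≤ 36 * X * θ) (hL0 : 0 < L) (hL : L ≤ c * X)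
    (hE : E ≤ a * X ^ 2 / s) (hμ : 1 / (36 * X) ≤ μ) (hG0 : 0 < G)
    (hG : G ≤ W / s ^ 3) (hc₂ : 93312 * c ^ 3 * C₀ * (1 + a) ≤ c₂)
    (hbig : 72 * c * C₀ * (1 + a) * X ^ 5 < s) :
    C₀ * (1 + W * E) * (1 + s ^ 3 / (W ^ 2 * X ^ 13 * c₂) * L ^ 2 / (lam ^ 4 * θ ^ 2)) <
      lam * μ * (W ^ 2 / s ^ 3) / (L * G) := by
  have hs0 : 0 < s := by linarith
  have hW : 0 < W := by linarith
  have hc0 : 0 < c := by linarith
  have hX0 : 0 < X := by linarith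
  have hC0 : 0 < C₀ := by linarith
  have hc₂0 : 0 < c₂ := lt_of_lt_of_le (by positivity) hc₂
  have hlam0 : 0 < lam := lt_of_lt_of_le (by positivity) hlam
  have hθ1 : s / (36 * X * W) ≤ θ := by
    rw [div_le_iff₀ (by positivity)]
    rw [div_le_iff₀ hW] at hθ
    linarith
  have hθ0 : 0 < θ := lt_of_lt_of_le (by positivity) hθ1
  have hμ0 : 0 < μ := lt_of_lt_of_le (by positivity) hμ
  have A1 := one_add_le hX hW hs0 hsW hE
  have A2 : s ^ 3 / (W ^ 2 * X ^ 13 * c₂) * L ^ 2 / (lam ^ 4 * θ ^ 2) ≤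
      1296 * c ^ 2 * s / (c₂ * X ^ 5) := by
    calc s ^ 3 / (W ^ 2 * X ^ 13 * c₂) * L ^ 2 / (lam ^ 4 * θ ^ 2)
        ≤ s ^ 3 / (W ^ 2 * X ^ 13 * c₂) * (c * X) ^ 2 /
          ((1 / X) ^ 4 * (s / (36 * X * W)) ^ 2) := by gcongr
      _ = 1296 * c ^ 2 * s / (c₂ * X ^ 5) := by
        field_simp
        ring
  have A3 : W / (36 * c * X ^ 3) ≤ lam * μ * (W ^ 2 / s ^ 3) / (L * G) := by
    calc W / (36 * c * X ^ 3) = (1 / X) * (1 / (36 * X)) * (W ^ 2 / s ^ 3) / (c * X * (W / s ^ 3)) := by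
          field_simp
      _ ≤ _ := by gcongr
  refine lt_of_lt_of_le ?_ A3
  calc C₀ * (1 + W * E) * (1 + s ^ 3 / (W ^ 2 * X ^ 13 * c₂) * L ^ 2 / (lam ^ 4 * θ ^ 2))
      ≤ C₀ * ((1 + a) * X ^ 2 * (W / s)) * (1 + 1296 * c ^ 2 * s / (c₂ * X ^ 5)) := by
        apply mul_le_mul (mul_le_mul_of_nonneg_left A1 hC0.le) (by linarith) (by positivity)
          (by positivity)
    _ = C₀ * (1 + a) * X ^ 2 * W / s + 1296 * c ^ 2 * C₀ * (1 + a) * W / (c₂ * X ^ 3) := by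
        field_simp
    _ < W / (36 * c * X ^ 3) := by
        have B1 : C₀ * (1 + a) * X ^ 2 * W / s < W / (72 * c * X ^ 3) := by
          rw [div_lt_div_iff₀ hs0 (by positivity)]
          have : C₀ * (1 + a) * X ^ 2 * W * (72 * c * X ^ 3) =
              W * (72 * c * C₀ * (1 + a) * X ^ 5) := by ring
          rw [this]
          exact mul_lt_mul_of_pos_left hbig hW
        have B2 : 1296 * c ^ 2 * C₀ * (1 + a) * W / (c₂ * X ^ 3) ≤ W / (72 * c * X ^ 3) := by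
          rw [div_le_div_iff₀ (by positivity) (by positivity)]
          have e1 : 1296 * c ^ 2 * C₀ * (1 + a) * W * (72 * c * X ^ 3) =
              (W * X ^ 3) * (93312 * c ^ 3 * C₀ * (1 + a)) := by ring
          have e2 : W * (c₂ * X ^ 3) = (W * X ^ 3) * c₂ := by ring
          rw [e1, e2]
          exact mul_le_mul_of_nonneg_left hc₂ (by positivity)
        have e3 : W / (36 * c * X ^ 3) = W / (72 * c * X ^ 3) + W / (72 * c * X ^ 3) := by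
          field_simp
          norm_num
        rw [e3]
        exact add_lt_add_of_lt_of_le B1 B2

theorem sep {M : ℝ} (hX : 1 ≤ X) (hC₀ : 1 ≤ C₀) (hH : 1 ≤ CH) (hs : 0 < s) (hW : 0 < W)
    (hd : 0 < d) (hD : 0 < D) (hc₂ : 0 < c₂) (hM : M ≤ 64 * C₀ * CH * X)
    (hbig : 1024 * C₀ * CH * c₂ * X ^ 14 < D ^ 2 / d ^ 3) :
    16 * (M * ((s * d) ^ 3 / (W * D) ^ 2)) < s ^ 3 / (W ^ 2 * X ^ 13 * c₂) := by
  have hX0 : 0 < X := by linarith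
  calc 16 * (M * ((s * d) ^ 3 / (W * D) ^ 2))
      ≤ 16 * (64 * C₀ * CH * X * ((s * d) ^ 3 / (W * D) ^ 2)) := by gcongr
    _ = (1024 * C₀ * CH * c₂ * X ^ 14) * (s ^ 3 * d ^ 3 / (W ^ 2 * D ^ 2 * c₂ * X ^ 13)) := by
        field_simp
        ring
    _ < (D ^ 2 / d ^ 3) * (s ^ 3 * d ^ 3 / (W ^ 2 * D ^ 2 * c₂ * X ^ 13)) :=
        mul_lt_mul_of_pos_right hbig (by positivity)
    _ = _ := by field_simp

theorem kap {M : ℝ} (hX : 1 ≤ X) (hC₀ : 1 ≤ C₀) (hH : 1 ≤ CH) (hs : 0 < s) (hsW : s ^ 2 ≤ W)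
    (hM : M ≤ 64 * C₀ * CH * X) (hc₃ : (4 + C₀) * (64 * C₀ * CH) < c₃) :
    (4 + C₀) * (M * (s ^ 3 / W ^ 2)) < c₃ * X ^ 10 * s / W := by
  have hX0 : 0 < X := by linarith
  have hW : 0 < W := lt_of_lt_of_le (by positivity) hsW
  have hC0 : 0 < C₀ := by linarith
  have hH0 : 0 < CH := by linarith
  calc (4 + C₀) * (M * (s ^ 3 / W ^ 2))
      ≤ (4 + C₀) * (64 * C₀ * CH * X * (s ^ 3 / W ^ 2)) := by gcongr
    _ = (4 + C₀) * (64 * C₀ * CH) * X * (s / W ^ 2) * s ^ 2 := by ring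
    _ ≤ (4 + C₀) * (64 * C₀ * CH) * X * (s / W ^ 2) * W := by gcongr
    _ = (4 + C₀) * (64 * C₀ * CH) * X * (s / W) := by field_simp
    _ < c₃ * X * (s / W) := by
        apply mul_lt_mul_of_pos_right _ (by positivity)
        exact mul_lt_mul_of_pos_right hc₃ hX0
    _ ≤ c₃ * X ^ 10 * (s / W) := by
        have hc₃0 : 0 < c₃ := lt_trans (by positivity) hc₃
        have : X ≤ X ^ 10 := le_self_pow₀ hX (by norm_num)
        gcongr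
    _ = _ := by ring

theorem inn {M Q μ E : ℝ} (hX : 1 ≤ X) (hlam : 1 / X ≤ lam) (hC₀ : 1 ≤ C₀) (hH : 1 ≤ CH)
    (ha : 0 ≤ a) (hs : 1 ≤ s) (hsW : s ≤ W) (hd : 0 < d) (hD : 1 ≤ D) (hM0 : 0 < M)
    (hM : M ≤ 64 * C₀ * CH * X) (hQ : Q ≤ X * (W * D / (s * d) ^ 3))
    (hμ : 1 / (36 * X) ≤ μ) (hE : E ≤ a * X ^ 2 / s) (hE0 : 0 ≤ E) (hc₂ : 0 < c₂)
    (hc₃ : 64 * C₀ * CH ≤ c₃)
    (hc₃' : 16 * (1260 * C₀ * (1 + a) * (64 * C₀ * CH) * c₂) ≤ c₃)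
    (hbig : 16 * (1260 * C₀ * (1 + a) * (64 * C₀ * CH) * c₂) * X ^ 19 ≤ s) :
    (s * d) ^ 3 / (W * D) ^ 2 * (Q * (35 / μ)) *
      (C₀ * (1 + W * D * E) * (1 + M * (s ^ 3 / W ^ 2) / (c₃ * X ^ 10 * s / W) ^ 2) *
        (M * (s ^ 3 / W ^ 2) / (s ^ 3 / (W ^ 2 * X ^ 13 * c₂)))) ≤ lam / 8 := by
  have hs0 : 0 < s := by linarith
  have hW : 0 < W := by linarith
  have hD0 : 0 < D := by linarith
  have hX0 : 0 < X := by linarith
  have hC0 : 0 < C₀ := by linarith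
  have hH0 : 0 < CH := by linarith
  have hc₃0 : 0 < c₃ := lt_of_lt_of_le (by positivity) hc₃
  have hμ0 : 0 < μ := lt_of_lt_of_le (by positivity) hμ
  have hWD : 0 < W * D := by positivity
  have hsWD : s ≤ W * D := by nlinarith
  set k : ℝ := 64 * C₀ * CH with hk
  have hk0 : 0 < k := by positivity
  have A0 : (s * d) ^ 3 / (W * D) ^ 2 * (Q * (35 / μ)) ≤ 1260 * X ^ 2 / (W * D) := by
    calc (s * d) ^ 3 / (W * D) ^ 2 * (Q * (35 / μ))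
        ≤ (s * d) ^ 3 / (W * D) ^ 2 * (X * (W * D / (s * d) ^ 3) * (35 / (1 / (36 * X)))) := by
          gcongr
      _ = 1260 * X ^ 2 / (W * D) := by
        field_simp
        norm_num
  have A1 := one_add_le hX hWD hs0 hsWD hE
  have A2 : M * (s ^ 3 / W ^ 2) / (c₃ * X ^ 10 * s / W) ^ 2 ≤ s / (c₃ * X ^ 19) := by
    calc M * (s ^ 3 / W ^ 2) / (c₃ * X ^ 10 * s / W) ^ 2
        ≤ k * X * (s ^ 3 / W ^ 2) / (c₃ * X ^ 10 * s / W) ^ 2 := by gcongr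
      _ = k * (s / (c₃ ^ 2 * X ^ 19)) := by field_simp
      _ ≤ c₃ * (s / (c₃ ^ 2 * X ^ 19)) := by gcongr
      _ = _ := by field_simp
  have A3 : M * (s ^ 3 / W ^ 2) / (s ^ 3 / (W ^ 2 * X ^ 13 * c₂)) ≤ k * c₂ * X ^ 14 := by
    calc M * (s ^ 3 / W ^ 2) / (s ^ 3 / (W ^ 2 * X ^ 13 * c₂))
        ≤ k * X * (s ^ 3 / W ^ 2) / (s ^ 3 / (W ^ 2 * X ^ 13 * c₂)) := by gcongr
      _ = _ := by field_simp
  have hA1 : 0 ≤ 1 + W * D * E := by positivity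
  calc (s * d) ^ 3 / (W * D) ^ 2 * (Q * (35 / μ)) *
      (C₀ * (1 + W * D * E) * (1 + M * (s ^ 3 / W ^ 2) / (c₃ * X ^ 10 * s / W) ^ 2) *
        (M * (s ^ 3 / W ^ 2) / (s ^ 3 / (W ^ 2 * X ^ 13 * c₂))))
      ≤ 1260 * X ^ 2 / (W * D) * (C₀ * ((1 + a) * X ^ 2 * (W * D / s)) * (1 + s / (c₃ * X ^ 19)) *
        (k * c₂ * X ^ 14)) := by gcongr
    _ = (1260 * C₀ * (1 + a) * k * c₂) * X ^ 18 * (1 / s + 1 / (c₃ * X ^ 19)) := by
        field_simp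
    _ ≤ 1 / (8 * X) := by
        set c₄ : ℝ := 1260 * C₀ * (1 + a) * k * c₂ with hc₄
        have hc₄0 : 0 < c₄ := by positivity
        have B1 : c₄ * X ^ 18 * (1 / s) ≤ 1 / (16 * X) := by
          rw [mul_one_div, div_le_div_iff₀ hs0 (by positivity)]
          calc c₄ * X ^ 18 * (16 * X) = 16 * c₄ * X ^ 19 := by ring
            _ ≤ 1 * s := by rw [one_mul]; exact hbig
        have B2 : c₄ * X ^ 18 * (1 / (c₃ * X ^ 19)) ≤ 1 / (16 * X) := by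
          rw [mul_one_div, div_le_div_iff₀ (by positivity) (by positivity)]
          calc c₄ * X ^ 18 * (16 * X) = (16 * c₄) * X ^ 19 := by ring
            _ ≤ c₃ * X ^ 19 := by gcongr
            _ = 1 * (c₃ * X ^ 19) := by ring
        have e : 1 / (8 * X) = 1 / (16 * X) + 1 / (16 * X) := by
          field_simp
          norm_num
        rw [mul_add, e]
        exact add_le_add B1 B2
    _ = (1 / X) / 8 := by
        field_simp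
    _ ≤ lam / 8 := by gcongr

/-- the lower bound of `θ'` -/
theorem th_low {θ : ℝ} (hX : 1 ≤ X) (hlam : 1 / X ≤ lam) (hc : 1 ≤ c) (hs : 0 < s) (hW : 0 < W)
    (hd : 0 < d) (hD : 0 < D) (hc₃ : 0 < c₃) (hL0 : 0 < L) (hL : L ≤ c * X)
    (hθ : s * d / (W * D) ≤ 36 * X * θ) :
    d / (D * (2880 * c * c₃ * X ^ 14)) ≤ lam ^ 2 * θ / (80 * L * (c₃ * X ^ 10 * s / W)) := by
  have hX0 : 0 < X := by linarith
  have hc0 : 0 < c := by linarith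
  have hθ1 : s * d / (W * D * (36 * X)) ≤ θ := by
    rw [div_le_iff₀ (by positivity)]
    rw [div_le_iff₀ (by positivity)] at hθ
    linarith
  have hθ0 : 0 < θ := lt_of_lt_of_le (by positivity) hθ1
  calc d / (D * (2880 * c * c₃ * X ^ 14)) = (1 / X) ^ 2 * (s * d / (W * D * (36 * X))) /
        (80 * (c * X) * (c₃ * X ^ 10 * s / W)) := by
        field_simp
        norm_num
    _ ≤ _ := by gcongr

theorem out1 {M θ : ℝ} (hX : 1 ≤ X) (hlam : 1 / X ≤ lam) (hc : 1 ≤ c) (hs : 0 < s) (hW : 0 < W)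
    (hC₀ : 1 ≤ C₀) (hH : 1 ≤ CH) (hM : M ≤ 64 * C₀ * CH * X) (hc₂ : 0 < c₂)
    (hd : 0 < d) (hD : 0 < D) (hc₃ : 0 < c₃) (hL0 : 0 < L) (hL : L ≤ c * X)
    (hθ : s * d / (W * D) ≤ 36 * X * θ)
    (hbig : (4 + C₀) * (40000 * C₀ * CH * c₂) * (2880 * c * c₃) * X ^ 28 < D / d ^ 2) :
    (4 + C₀) * (625 * (M * ((s * d) ^ 3 / (W * D) ^ 2)) / (s ^ 3 / (W ^ 2 * X ^ 13 * c₂))) <
      lam ^ 2 * θ / (80 * L * (c₃ * X ^ 10 * s / W)) := by
  have hX0 : 0 < X := by linarith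
  have hc0 : 0 < c := by linarith
  have hC0 : 0 < C₀ := by linarith
  refine lt_of_lt_of_le ?_ (th_low hX hlam hc hs hW hd hD hc₃ hL0 hL hθ)
  calc (4 + C₀) * (625 * (M * ((s * d) ^ 3 / (W * D) ^ 2)) / (s ^ 3 / (W ^ 2 * X ^ 13 * c₂)))
      ≤ (4 + C₀) * (625 * (64 * C₀ * CH * X * ((s * d) ^ 3 / (W * D) ^ 2)) /
        (s ^ 3 / (W ^ 2 * X ^ 13 * c₂))) := by gcongr
    _ = ((4 + C₀) * (40000 * C₀ * CH * c₂) * (2880 * c * c₃) * X ^ 28) *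
        (d ^ 3 / (D ^ 2 * (2880 * c * c₃ * X ^ 14))) := by
        field_simp
        ring
    _ < D / d ^ 2 * (d ^ 3 / (D ^ 2 * (2880 * c * c₃ * X ^ 14))) :=
        mul_lt_mul_of_pos_right hbig (by positivity)
    _ = _ := by field_simp

theorem out2 {θ : ℝ} (hX : 1 ≤ X) (hlam0 : 0 < lam) (hlam : lam ≤ 1) (hs : 0 < s) (hW : 0 < W)
    (hd : 0 < d) (hD : d ≤ D) (hc₃ : 1 ≤ c₃) (hL0 : 1 ≤ L) (hθ0 : 0 < θ)
    (hθ : θ ≤ X * (s * d / (W * D))) :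
    lam ^ 2 * θ / (80 * L * (c₃ * X ^ 10 * s / W)) ≤ 1 := by
  have hX0 : 0 < X := by linarith
  have hD0 : 0 < D := by linarith
  have hc₃0 : 0 < c₃ := by linarith
  calc lam ^ 2 * θ / (80 * L * (c₃ * X ^ 10 * s / W))
      ≤ 1 ^ 2 * (X * (s * d / (W * D))) / (80 * 1 * (c₃ * X ^ 10 * s / W)) := by gcongr
    _ = d / D * (1 / (80 * c₃ * X ^ 9)) := by field_simp
    _ ≤ 1 * 1 := by
        apply mul_le_mul ((div_le_one hD0).2 hD) _ (by positivity) zero_le_one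
        rw [div_le_one (by positivity)]
        have h1 : 1 ≤ X ^ 9 := one_le_pow₀ hX
        nlinarith
    _ = 1 := one_mul 1

theorem fin {M θ μ E G : ℝ} (hX : 1 ≤ X) (hlam : 1 / X ≤ lam) (hc : 1 ≤ c) (hs : 1 ≤ s)
    (hsW : s ≤ W) (ha : 0 ≤ a) (hC₀ : 1 ≤ C₀) (hH : 1 ≤ CH) (hM0 : 0 < M)
    (hM : M ≤ 64 * C₀ * CH * X) (hc₂ : 0 < c₂) (hd : 1 ≤ d) (hD : d ≤ D) (hc₃ : 0 < c₃)
    (hL0 : 0 < L) (hL : L ≤ c * X) (hθ : s * d / (W * D) ≤ 36 * X * θ)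
    (hμ : 1 / (36 * X) ≤ μ) (hE : E ≤ a * X ^ 2 / (s * d)) (hE0 : 0 ≤ E) (hG0 : 0 < G)
    (hG : G ≤ W * D / (s * d) ^ 3)
    (hbig : (6400 * C₀ * CH * c₂) * C₀ * (1 + a) *
      (1 + 40000 * C₀ * CH * c₂ * (2880 * c * c₃) ^ 2) * (5040 * c) * X ^ 61 < s) :
    100 * (M * (s ^ 3 / W ^ 2) / (s ^ 3 / (W ^ 2 * X ^ 13 * c₂))) * (C₀ * (1 + W * D * E) *
      (1 + 625 * (M * ((s * d) ^ 3 / (W * D) ^ 2)) / (s ^ 3 / (W ^ 2 * X ^ 13 * c₂)) /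
        (lam ^ 2 * θ / (80 * L * (c₃ * X ^ 10 * s / W))) ^ 2)) <
    lam * μ * ((W * D) ^ 2 / (s * d) ^ 3) / (140 * (L * G)) := by
  have hs0 : 0 < s := by linarith
  have hW : 0 < W := by linarith
  have hd0 : 0 < d := by linarith
  have hD0 : 0 < D := by linarith
  have hX0 : 0 < X := by linarith
  have hC0 : 0 < C₀ := by linarith
  have hH0 : 0 < CH := by linarith
  have hc0 : 0 < c := by linarith
  have hlam0 : 0 < lam := lt_of_lt_of_le (by positivity) hlam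
  have hμ0 : 0 < μ := lt_of_lt_of_le (by positivity) hμ
  have hWD : 0 < W * D := by positivity
  have hsWD : s * d ≤ W * D := by nlinarith
  have hlow := th_low hX hlam hc hs0 hW hd0 hD0 hc₃ hL0 hL hθ
  have A1 := one_add_le hX hWD (mul_pos hs0 hd0) hsWD hE
  set k : ℝ := 64 * C₀ * CH with hk
  have hk0 : 0 < k := by positivity
  set c₆ : ℝ := 40000 * C₀ * CH * c₂ * (2880 * c * c₃) ^ 2 with hc₆
  have hc₆0 : 0 < c₆ := by positivity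
  have A2 : 625 * (M * ((s * d) ^ 3 / (W * D) ^ 2)) / (s ^ 3 / (W ^ 2 * X ^ 13 * c₂)) /
        (lam ^ 2 * θ / (80 * L * (c₃ * X ^ 10 * s / W))) ^ 2 ≤ c₆ * X ^ 42 * d := by
    calc 625 * (M * ((s * d) ^ 3 / (W * D) ^ 2)) / (s ^ 3 / (W ^ 2 * X ^ 13 * c₂)) /
        (lam ^ 2 * θ / (80 * L * (c₃ * X ^ 10 * s / W))) ^ 2
        ≤ 625 * (k * X * ((s * d) ^ 3 / (W * D) ^ 2)) / (s ^ 3 / (W ^ 2 * X ^ 13 * c₂)) /
        (d / (D * (2880 * c * c₃ * X ^ 14))) ^ 2 := by gcongr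
      _ = c₆ * X ^ 42 * d := by
        rw [hc₆, hk]
        field_simp
        ring
  have A3 : M * (s ^ 3 / W ^ 2) / (s ^ 3 / (W ^ 2 * X ^ 13 * c₂)) ≤ k * c₂ * X ^ 14 := by
    calc M * (s ^ 3 / W ^ 2) / (s ^ 3 / (W ^ 2 * X ^ 13 * c₂))
        ≤ k * X * (s ^ 3 / W ^ 2) / (s ^ 3 / (W ^ 2 * X ^ 13 * c₂)) := by gcongr
      _ = _ := by field_simp
  have A4 : 1 + c₆ * X ^ 42 * d ≤ (1 + c₆) * X ^ 42 * d := by
    have h1 : 1 ≤ X ^ 42 * d := one_le_mul_of_one_le_of_one_le (one_le_pow₀ hX) hd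
    have e : (1 + c₆) * X ^ 42 * d = X ^ 42 * d + c₆ * X ^ 42 * d := by ring
    rw [e]
    exact add_le_add h1 le_rfl
  have A5 : W * D / (5040 * c * X ^ 3) ≤
      lam * μ * ((W * D) ^ 2 / (s * d) ^ 3) / (140 * (L * G)) := by
    calc W * D / (5040 * c * X ^ 3) = (1 / X) * (1 / (36 * X)) * ((W * D) ^ 2 / (s * d) ^ 3) /
          (140 * (c * X * (W * D / (s * d) ^ 3))) := by
          field_simp
          norm_num
      _ ≤ _ := by gcongr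
  refine lt_of_lt_of_le ?_ A5
  have hA1 : 0 ≤ 1 + W * D * E := by positivity
  have hA2 : 0 ≤ 625 * (M * ((s * d) ^ 3 / (W * D) ^ 2)) / (s ^ 3 / (W ^ 2 * X ^ 13 * c₂)) /
        (lam ^ 2 * θ / (80 * L * (c₃ * X ^ 10 * s / W))) ^ 2 := by positivity
  have hA3 : 0 ≤ M * (s ^ 3 / W ^ 2) / (s ^ 3 / (W ^ 2 * X ^ 13 * c₂)) := by positivity
  have A6 := (add_le_add (le_refl (1 : ℝ)) A2).trans A4
  have hA6 := add_nonneg (zero_le_one' ℝ) hA2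
  clear A2 hA2 A4 hlow hθ
  generalize 1 + 625 * (M * ((s * d) ^ 3 / (W * D) ^ 2)) / (s ^ 3 / (W ^ 2 * X ^ 13 * c₂)) /
        (lam ^ 2 * θ / (80 * L * (c₃ * X ^ 10 * s / W))) ^ 2 = T2 at A6 hA6 ⊢
  generalize M * (s ^ 3 / W ^ 2) / (s ^ 3 / (W ^ 2 * X ^ 13 * c₂)) = T3 at A3 hA3 ⊢
  generalize 1 + W * D * E = T1 at A1 hA1 ⊢
  calc 100 * T3 * (C₀ * T1 * T2)
      ≤ 100 * (k * c₂ * X ^ 14) * (C₀ * ((1 + a) * X ^ 2 * (W * D / (s * d))) *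
        ((1 + c₆) * X ^ 42 * d)) := by gcongr
    _ = ((6400 * C₀ * CH * c₂) * C₀ * (1 + a) * (1 + c₆) * (5040 * c) * X ^ 61) *
        (W * D / (s * (5040 * c * X ^ 3))) := by
        rw [hk]
        field_simp
        ring
    _ < s * (W * D / (s * (5040 * c * X ^ 3))) := mul_lt_mul_of_pos_right hbig (by positivity)
    _ = _ := by field_simp

end

end Pool.Agent.Helper78.ES.TWN
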