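import Pool.Agent.Helper68.ES.St3
import Pool.Agent.Helper78.ES.TWNa

/-! Project ES, module TWN: the numbers of one class. -/

set_option autoImplicit false

namespace Pool.Agent.Helper78.ES.TWN

open Pool.Agent.Helper68.ES

section
variable {p : ℝ}

theorem p_dl (hp : p ^ 2 + p = 3) : p * (1 - (2 - p) / 3) = 1 := by nlinarith

theorem inv_p (hp1 : 1 < p) (hp : p ^ 2 + p = 3) : 1 / p = 1 - (2 - p) / 3 := by
  have h := p_dl hp
  field_simp
  linarith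

/-- `s = 2^(δ v)` -/
noncomputable def ss (p : ℝ) (v : ℕ) : ℝ := (2 : ℝ) ^ ((2 - p) / 3 * (v : ℝ))

theorem ss_pos (v : ℕ) : 0 < ss p v := Real.rpow_pos_of_pos (by norm_num) _

theorem ss_eq (v : ℕ) : ((2 : ℝ) ^ v) ^ ((2 - p) / 3) = ss p v := by
  unfold ss
  rw [← Real.rpow_natCast, ← Real.rpow_mul (by norm_num), mul_comm]

theorem one_le_ss (hp2 : p < 2) (v : ℕ) : 1 ≤ ss p v := by
  unfold ss
  apply Real.one_le_rpow (by norm_num)
  apply mul_nonneg (by linarith) (Nat.cast_nonneg v)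

theorem ss3_le (hp1 : 1 < p) (v : ℕ) : ss p v ^ 3 ≤ (2 : ℝ) ^ v := by
  unfold ss
  rw [← Real.rpow_natCast, ← Real.rpow_mul (by norm_num), ← Real.rpow_natCast 2 v]
  apply Real.rpow_le_rpow_of_exponent_le (by norm_num)
  have : (0 : ℝ) ≤ v := Nat.cast_nonneg v
  push_cast
  nlinarith

theorem ss_cube (v : ℕ) : ss p v ^ 3 = (2 : ℝ) ^ ((2 - p) * (v : ℝ)) := by
  unfold ss
  rw [← Real.rpow_natCast, ← Real.rpow_mul (by norm_num)]
  congr 1
  push_cast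
  ring

theorem V_sq (v : ℕ) : ((2 : ℝ) ^ v) ^ 2 = (2 : ℝ) ^ (2 * (v : ℝ)) := by
  rw [← pow_mul, ← Real.rpow_natCast]
  congr 1
  push_cast
  ring

theorem pow_q (v : ℕ) : (2 : ℝ) ^ ((p - 1) * (v : ℝ)) = (2 : ℝ) ^ v / ss p v ^ 3 := by
  rw [ss_cube, ← Real.rpow_natCast 2 v, ← Real.rpow_sub (by norm_num)]
  congr 1
  ring

theorem pow_neg (v : ℕ) : (2 : ℝ) ^ (-(p * (v : ℝ))) = ss p v ^ 3 / ((2 : ℝ) ^ v) ^ 2 := by
  rw [ss_cube, V_sq, ← Real.rpow_sub (by norm_num)]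
  congr 1
  ring

theorem pow_pos' (v : ℕ) : (2 : ℝ) ^ (p * (v : ℝ)) = ((2 : ℝ) ^ v) ^ 2 / ss p v ^ 3 := by
  rw [ss_cube, V_sq, ← Real.rpow_sub (by norm_num)]
  congr 1
  ring

theorem pow_i (hp1 : 1 < p) (hp : p ^ 2 + p = 3) (v : ℕ) :
    (2 : ℝ) ^ (-((v : ℝ) / p)) = ss p v / (2 : ℝ) ^ v := by
  unfold ss
  rw [← Real.rpow_natCast 2 v, ← Real.rpow_sub (by norm_num)]
  congr 1
  rw [div_eq_mul_one_div, inv_p hp1 hp]
  ring

theorem root (hp1 : 1 < p) (hp : p ^ 2 + p = 3) (v : ℕ) :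
    ((2 : ℝ) ^ v / ss p v ^ 3) ^ (1 / p) = ss p v := by
  rw [← pow_q, ← Real.rpow_mul (by norm_num)]
  unfold ss
  congr 1
  have h := p_dl hp
  field_simp
  nlinarith

theorem ss_add (w u : ℕ) (h : w < u) : ss p u = ss p w * ss p (u - w) := by
  unfold ss
  rw [← Real.rpow_add (by norm_num), Nat.cast_sub h.le]
  congr 1
  ring

theorem E_le (hp1 : 1 < p) (hp : p ^ 2 + p = 3) {A k X G : ℝ} (hA : 0 ≤ A) (hk : 0 ≤ k)
    (hX : 1 ≤ X) (hG : 0 < G) (v : ℕ) (h : (2 : ℝ) ^ v / ss p v ^ 3 ≤ k * X ^ 2 * G) :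
    (A / G) ^ (1 / p) ≤ (A * k) ^ (1 / p) * X ^ 2 / ss p v := by
  have hs := ss_pos (p := p) v
  have hX0 : 0 < X := by linarith
  have hp0 : 0 < 1 / p := by positivity
  have hp1' : 1 / p ≤ 1 := by rw [div_le_one (by linarith)]; exact hp1.le
  have hV : 0 < (2 : ℝ) ^ v / ss p v ^ 3 := by positivity
  have h1 : A / G ≤ A * k * X ^ 2 / ((2 : ℝ) ^ v / ss p v ^ 3) := by
    rw [div_le_div_iff₀ hG hV]
    calc A * ((2 : ℝ) ^ v / ss p v ^ 3) ≤ A * (k * X ^ 2 * G) := mul_le_mul_of_nonneg_left h hA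
      _ = A * k * X ^ 2 * G := by ring
  calc (A / G) ^ (1 / p) ≤ (A * k * X ^ 2 / ((2 : ℝ) ^ v / ss p v ^ 3)) ^ (1 / p) :=
        Real.rpow_le_rpow (by positivity) h1 hp0.le
    _ = (A * k) ^ (1 / p) * (X ^ 2) ^ (1 / p) / ss p v := by
        rw [Real.div_rpow (by positivity) hV.le, Real.mul_rpow (by positivity) (by positivity),
          root hp1 hp]
    _ ≤ (A * k) ^ (1 / p) * X ^ 2 / ss p v := by
        have h2 : (X ^ 2) ^ (1 / p) ≤ X ^ 2 := by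
          calc (X ^ 2) ^ (1 / p) ≤ (X ^ 2) ^ (1 : ℝ) :=
                Real.rpow_le_rpow_of_exponent_le (one_le_pow₀ hX) hp1'
            _ = X ^ 2 := Real.rpow_one _
        gcongr

/-- the numbers of one class -/
structure One (p X lam V s Q θ μ : ℝ) : Prop where
  qa : Q ≤ X * (V / s ^ 3)
  qb : V / s ^ 3 ≤ 2 * X * Q
  ta : θ ≤ X * (s / V)
  tb : s / V ≤ 36 * X * θ
  mu : 1 / (36 * X) ≤ μ
  qm : Q ≤ μ * 36 * (lam * X) * (V / s ^ 3)

theorem one (hp1 : 1 < p) (hp : p ^ 2 + p = 3) {e : ℝ} {R Y β : ℤ} {v q i : ℕ}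
    (h : Cfg p e R Y β v q i) {lam : ℝ} (hl0 : 0 < lam) (hl1 : lam ≤ 1) :
    One p ((2 : ℝ) ^ (sz R Y β) / lam) lam (2 ^ v) (ss p v) (2 ^ q) (th i) (mb i β * th i) := by
  set T := sz R Y β with hT
  set X := (2 : ℝ) ^ T / lam with hX
  have hRT : |(R : ℝ)| ≤ T := by rw [hT]; unfold sz; linarith [abs_nonneg (Y : ℝ), abs_nonneg (β : ℝ)]
  have hYT : |(Y : ℝ)| ≤ T := by rw [hT]; unfold sz; linarith [abs_nonneg (R : ℝ), abs_nonneg (β : ℝ)]
  have hβT : |(β : ℝ)| ≤ T := by rw [hT]; unfold sz; linarith [abs_nonneg (Y : ℝ), abs_nonneg (R : ℝ)]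
  have hRβ : (R : ℝ) - β ≤ T := by
    rw [hT]; unfold sz
    linarith [abs_nonneg (Y : ℝ), le_abs_self (R : ℝ), neg_abs_le (β : ℝ)]
  have h2T : 0 < (2 : ℝ) ^ T := Real.rpow_pos_of_pos (by norm_num) _
  have hlX : lam * X = (2 : ℝ) ^ T := by rw [hX]; field_simp
  have hTX : (2 : ℝ) ^ T ≤ X := by
    rw [hX, le_div_iff₀ hl0]
    exact mul_le_of_le_one_right h2T.le hl1
  have hX0 : 0 < X := lt_of_lt_of_le h2T hTX
  have hq : (q : ℝ) = ⌊(p - 1) * v⌋ + R := by exact_mod_cast h.hq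
  have hi : (i : ℝ) = ⌊(v : ℝ) / p⌋ + Y := by exact_mod_cast h.hi
  have f1 := Int.floor_le ((p - 1) * (v : ℝ))
  have f2 := Int.lt_floor_add_one ((p - 1) * (v : ℝ))
  have f3 := Int.floor_le ((v : ℝ) / p)
  have f4 := Int.lt_floor_add_one ((v : ℝ) / p)
  have r1 := abs_le.1 hRT
  have r2 := abs_le.1 hYT
  have r3 := abs_le.1 hβT
  have hQ : (2 : ℝ) ^ q = (2 : ℝ) ^ (q : ℝ) := (Real.rpow_natCast 2 q).symm
  have hth : th i = (2 : ℝ) ^ (-(i : ℝ)) / 36 := by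
    unfold th
    rw [← Real.rpow_intCast]
    push_cast
    rfl
  have hmu : mb i β * th i = (2 : ℝ) ^ (β : ℝ) / 36 := by
    rw [hth]
    unfold mb
    rw [← Real.rpow_intCast, mul_div_assoc', ← Real.rpow_add (by norm_num)]
    congr 2
    push_cast
    ring
  refine ⟨?_, ?_, ?_, ?_, ?_, ?_⟩
  · rw [hQ, ← pow_q]
    calc (2 : ℝ) ^ (q : ℝ) ≤ (2 : ℝ) ^ (T + (p - 1) * v) := by
          apply Real.rpow_le_rpow_of_exponent_le (by norm_num); linarith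
      _ = (2 : ℝ) ^ T * (2 : ℝ) ^ ((p - 1) * (v : ℝ)) := Real.rpow_add (by norm_num) _ _
      _ ≤ _ := by gcongr
  · rw [hQ, ← pow_q]
    calc (2 : ℝ) ^ ((p - 1) * (v : ℝ)) ≤ (2 : ℝ) ^ (1 + T + (q : ℝ)) := by
          apply Real.rpow_le_rpow_of_exponent_le (by norm_num); linarith
      _ = 2 * (2 : ℝ) ^ T * (2 : ℝ) ^ (q : ℝ) := by
          rw [Real.rpow_add (by norm_num), Real.rpow_add (by norm_num), Real.rpow_one]
      _ ≤ _ := by gcongr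
  · rw [hth, ← pow_i hp1 hp]
    calc (2 : ℝ) ^ (-(i : ℝ)) / 36 ≤ (2 : ℝ) ^ (1 + T + -((v : ℝ) / p)) / 36 := by
          apply div_le_div_of_nonneg_right _ (by norm_num)
          apply Real.rpow_le_rpow_of_exponent_le (by norm_num); linarith
      _ = (2 : ℝ) ^ T * (2 : ℝ) ^ (-((v : ℝ) / p)) / 18 := by
          rw [Real.rpow_add (by norm_num), Real.rpow_add (by norm_num), Real.rpow_one]
          ring
      _ ≤ X * (2 : ℝ) ^ (-((v : ℝ) / p)) := by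
          have h1 : 0 < (2 : ℝ) ^ (-((v : ℝ) / p)) := Real.rpow_pos_of_pos (by norm_num) _
          have h2 : (2 : ℝ) ^ T * (2 : ℝ) ^ (-((v : ℝ) / p)) ≤ X * (2 : ℝ) ^ (-((v : ℝ) / p)) := by
            gcongr
          have h3 : 0 < (2 : ℝ) ^ T * (2 : ℝ) ^ (-((v : ℝ) / p)) := by positivity
          linarith
  · rw [hth, ← pow_i hp1 hp]
    calc (2 : ℝ) ^ (-((v : ℝ) / p)) ≤ (2 : ℝ) ^ (T + -(i : ℝ)) := by
          apply Real.rpow_le_rpow_of_exponent_le (by norm_num); linarith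
      _ = (2 : ℝ) ^ T * (2 : ℝ) ^ (-(i : ℝ)) := Real.rpow_add (by norm_num) _ _
      _ ≤ X * (2 : ℝ) ^ (-(i : ℝ)) := by gcongr
      _ = _ := by ring
  · rw [hmu]
    have h1 : 1 / X ≤ (2 : ℝ) ^ (β : ℝ) := by
      rw [div_le_iff₀ hX0]
      calc (1 : ℝ) = (2 : ℝ) ^ (0 : ℝ) := (Real.rpow_zero 2).symm
        _ ≤ (2 : ℝ) ^ ((β : ℝ) + T) := by
            apply Real.rpow_le_rpow_of_exponent_le (by norm_num); linarith
        _ = (2 : ℝ) ^ (β : ℝ) * (2 : ℝ) ^ T := Real.rpow_add (by norm_num) _ _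
        _ ≤ _ := by gcongr
    calc 1 / (36 * X) = 1 / X / 36 := by field_simp
      _ ≤ _ := by gcongr
  · rw [hmu, hlX, hQ, ← pow_q]
    calc (2 : ℝ) ^ (q : ℝ) ≤ (2 : ℝ) ^ ((β : ℝ) + T + (p - 1) * v) := by
          apply Real.rpow_le_rpow_of_exponent_le (by norm_num); linarith
      _ = (2 : ℝ) ^ (β : ℝ) * (2 : ℝ) ^ T * (2 : ℝ) ^ ((p - 1) * (v : ℝ)) := by
          rw [Real.rpow_add (by norm_num), Real.rpow_add (by norm_num)]
      _ = _ := by ring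

end

/-- the parameters which depend on `r` -/
structure Two (X V s G G' : ℝ) (v r q : ℕ) : Prop where
  r1 : r + 11 ≤ q
  g1 : G ≤ V / s ^ 3
  g2 : V / s ^ 3 ≤ 5160960 * X ^ 2 * G
  g3 : V / s ^ 3 ≤ (16 * 5160960) * X ^ 2 * G'
  siz : v ≤ 43 * 2 ^ (q - 6 - r)

theorem two {p : ℝ} (hp1 : 1 < p) {X lam θ μ : ℝ} {v q r : ℕ} (hX : 1 ≤ X)
    (h : One p X lam (2 ^ v) (ss p v) (2 ^ q) θ μ) (hr1 : 20160 * X ≤ 2 ^ r)
    (hr2 : (2 : ℝ) ^ r ≤ 40320 * X)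
    (hbig : (1 + 2 / ((p - 1) * Real.log 2)) * 165150720 * X ^ 2 < ((2 : ℝ) ^ v) ^ ((p - 1) / 2)) :
    Two X (2 ^ v) (ss p v) (2 ^ (q - 6 - r)) (2 ^ (q - 10 - r)) v r q := by
  have hX0 : 0 < X := by linarith
  set z : ℝ := ((2 : ℝ) ^ v) ^ ((p - 1) / 2) with hz
  have hz0 : 0 < z := by positivity
  have hlog : 0 < Real.log 2 := Real.log_pos (by norm_num)
  set k : ℝ := 2 / ((p - 1) * Real.log 2) with hk
  have hp0 : 0 < p - 1 := by linarith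
  have hk0 : 0 < k := by positivity
  have hz2 : (2 : ℝ) ^ v / ss p v ^ 3 = z * z := by
    rw [← pow_q, hz, ← Real.rpow_natCast 2 v, ← Real.rpow_mul (by norm_num),
      ← Real.rpow_add (by norm_num)]
    congr 1
    ring
  have hX2 : 1 ≤ X ^ 2 := one_le_pow₀ hX
  have hz1 : 165150720 * X ^ 2 < z := by nlinarith [mul_pos hk0 (by positivity : (0:ℝ) < X ^ 2)]
  have hz3 : k * 165150720 * X ^ 2 < z := by nlinarith
  have hz4 : 1 ≤ z := by nlinarith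
  have hr1' : r + 11 ≤ q := by
    have h1 : (2 : ℝ) ^ (r + 11) ≤ 2 ^ q := by
      have h2 := h.qb
      rw [hz2] at h2
      have h3 : z ≤ z * z := by nlinarith
      have h4 : 165150720 * X ^ 2 ≤ 2 * X * 2 ^ q := by linarith
      have h5 : 82575360 * X ≤ (2 : ℝ) ^ q := by
        have : 2 * X * (82575360 * X) ≤ 2 * X * 2 ^ q := by nlinarith
        exact le_of_mul_le_mul_left this (by positivity)
      calc (2 : ℝ) ^ (r + 11) = 2048 * 2 ^ r := by rw [pow_add]; norm_num; ring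
        _ ≤ 2048 * (40320 * X) := by gcongr
        _ ≤ 2 ^ q := by linarith
    exact (pow_le_pow_iff_right₀ (by norm_num : (1 : ℝ) < 2)).1 h1
  have hG : (2 : ℝ) ^ q = 2 ^ (q - 6 - r) * 64 * 2 ^ r := by
    have : q = (q - 6 - r) + 6 + r := by omega
    conv_lhs => rw [this]
    rw [pow_add, pow_add]
    norm_num
  have hG' : (2 : ℝ) ^ q = 2 ^ (q - 10 - r) * 1024 * 2 ^ r := by
    have : q = (q - 10 - r) + 10 + r := by omega
    conv_lhs => rw [this]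
    rw [pow_add, pow_add]
    norm_num
  have g2 : (2 : ℝ) ^ v / ss p v ^ 3 ≤ 5160960 * X ^ 2 * 2 ^ (q - 6 - r) := by
    calc (2 : ℝ) ^ v / ss p v ^ 3 ≤ 2 * X * 2 ^ q := h.qb
      _ = 2 * X * (2 ^ (q - 6 - r) * 64 * 2 ^ r) := by rw [hG]
      _ ≤ 2 * X * (2 ^ (q - 6 - r) * 64 * (40320 * X)) := by gcongr
      _ = _ := by ring
  refine ⟨hr1', ?_, g2, ?_, ?_⟩
  · have h1 := h.qa
    rw [hG] at h1
    have hV : 0 < (2 : ℝ) ^ v / ss p v ^ 3 := by rw [hz2]; positivity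
    have h2 : (2 : ℝ) ^ (q - 6 - r) * 64 * (20160 * X) ≤ X * ((2 : ℝ) ^ v / ss p v ^ 3) :=
      le_trans (by gcongr) h1
    have h3 : X * ((2 : ℝ) ^ (q - 6 - r) * 1290240) ≤ X * ((2 : ℝ) ^ v / ss p v ^ 3) := by
      linarith
    have h4 := le_of_mul_le_mul_left h3 hX0
    have h5 : (0 : ℝ) < 2 ^ (q - 6 - r) := by positivity
    linarith
  · calc (2 : ℝ) ^ v / ss p v ^ 3 ≤ 2 * X * 2 ^ q := h.qb
      _ = 2 * X * (2 ^ (q - 10 - r) * 1024 * 2 ^ r) := by rw [hG']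
      _ ≤ 2 * X * (2 ^ (q - 10 - r) * 1024 * (40320 * X)) := by gcongr
      _ = _ := by ring
  · have h1 : (v : ℝ) ≤ k * z := by
      have h2 : z = Real.exp ((v : ℝ) * ((p - 1) / 2) * Real.log 2) := by
        rw [hz, ← Real.rpow_natCast 2 v, ← Real.rpow_mul (by norm_num),
          Real.rpow_def_of_pos (by norm_num), mul_comm]
      have h3 := Real.add_one_le_exp ((v : ℝ) * ((p - 1) / 2) * Real.log 2)
      rw [← h2] at h3
      have h4 : (v : ℝ) * ((p - 1) / 2) * Real.log 2 ≤ z := by linarith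
      rw [hk]
      calc (v : ℝ) = 2 / ((p - 1) * Real.log 2) * ((v : ℝ) * ((p - 1) / 2) * Real.log 2) := by
            field_simp
        _ ≤ _ := mul_le_mul_of_nonneg_left h4 hk0.le
    rw [hz2] at g2
    have h5 : (v : ℝ) ≤ 43 * 2 ^ (q - 6 - r) := by
      have h6 : 165150720 * X ^ 2 * (v : ℝ) ≤ 165150720 * X ^ 2 * (43 * 2 ^ (q - 6 - r)) := by
        calc 165150720 * X ^ 2 * (v : ℝ) ≤ 165150720 * X ^ 2 * (k * z) := by gcongr
          _ = k * 165150720 * X ^ 2 * z := by ring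
          _ ≤ z * z := by gcongr
          _ ≤ 5160960 * X ^ 2 * 2 ^ (q - 6 - r) := g2
          _ ≤ 165150720 * X ^ 2 * (43 * 2 ^ (q - 6 - r)) := by
              have : 0 < X ^ 2 * (2 : ℝ) ^ (q - 6 - r) := by positivity
              nlinarith
      exact le_of_mul_le_mul_left h6 (by positivity)
    exact_mod_cast h5

end Pool.Agent.Helper78.ES.TWN
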