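import Pool.Agent.Helper68.ES.St3
import Pool.Agent.Helper78.ES.TWNb

/-! Project ES, module TWN. -/

set_option autoImplicit false

namespace Pool.Agent.Helper78.ES

open Pool.Agent.Helper68.ES TWN

theorem TWN.you {X lam V s μ : ℝ} {q r : ℕ} (hr : r ≤ q) (hX : 0 < X) (hl : 0 < lam) (hV : 0 < V)
    (hs : 0 < s) (hμ : 0 < μ) (hQ : (2 : ℝ) ^ q ≤ μ * 36 * (lam * X) * (V / s ^ 3))
    (hr1 : 20160 * X ≤ 2 ^ r) : s ^ 3 / V ^ 2 * (2 ^ (q - r) * V * (35 / μ)) ≤ lam / 16 := by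
  have e : (2 : ℝ) ^ (q - r) = 2 ^ q / 2 ^ r := by
    rw [eq_div_iff (by positivity), ← pow_add, Nat.sub_add_cancel hr]
  rw [e]
  calc s ^ 3 / V ^ 2 * (2 ^ q / 2 ^ r * V * (35 / μ))
      ≤ s ^ 3 / V ^ 2 * ((μ * 36 * (lam * X) * (V / s ^ 3)) / (20160 * X) * V * (35 / μ)) := by
        gcongr
    _ = lam / 16 := by
        field_simp
        norm_num

theorem TWN.D_pow {p : ℝ} (n : ℕ) :
    ((2 : ℝ) ^ n) ^ (1 - 2 * ((2 - p) / 3)) = (2 : ℝ) ^ n / TWN.ss p n ^ 2 := by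
  unfold TWN.ss
  rw [← Real.rpow_natCast 2 n, ← Real.rpow_mul (by norm_num),
    ← Real.rpow_natCast ((2 : ℝ) ^ ((2 - p) / 3 * (n : ℝ))), ← Real.rpow_mul (by norm_num),
    ← Real.rpow_sub (by norm_num)]
  congr 1
  push_cast
  ring

theorem hTWN : Pool.Agent.Helper68.ES.StTWN := by
  intro p hp1 hp2 hp A CH C₀ hA hH hC₀
  have hC0 : 0 < C₀ := by linarith
  have hH0 : 0 < CH := by linarith
  obtain ⟨c, hc⟩ : ∃ c : ℝ, c = 5160962 := ⟨_, rfl⟩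
  obtain ⟨a, ha⟩ : ∃ a : ℝ, a = (A * (16 * 5160960)) ^ (1 / p) := ⟨_, rfl⟩
  obtain ⟨c₂, hc₂⟩ : ∃ c₂ : ℝ, c₂ = 93312 * c ^ 3 * C₀ * (1 + a) := ⟨_, rfl⟩
  obtain ⟨c₄, hc₄⟩ : ∃ c₄ : ℝ, c₄ = 1260 * C₀ * (1 + a) * (64 * C₀ * CH) * c₂ := ⟨_, rfl⟩
  obtain ⟨c₃, hc₃⟩ : ∃ c₃ : ℝ, c₃ = (4 + C₀) * (64 * C₀ * CH) + 1 + 16 * c₄ := ⟨_, rfl⟩
  obtain ⟨c₇, hc₇⟩ : ∃ c₇ : ℝ, c₇ = (6400 * C₀ * CH * c₂) * C₀ * (1 + a) *
      (1 + 40000 * C₀ * CH * c₂ * (2880 * c * c₃) ^ 2) * (5040 * c) := ⟨_, rfl⟩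
  have hc1 : 1 ≤ c := by rw [hc]; norm_num
  have hc0 : 0 < c := by linarith
  have ha0 : 0 ≤ a := by rw [ha]; positivity
  have hc₂0 : 0 < c₂ := by rw [hc₂]; positivity
  have hc₄0 : 0 < c₄ := by rw [hc₄]; positivity
  have hc₃1 : 1 ≤ c₃ := by
    have : 0 < (4 + C₀) * (64 * C₀ * CH) := by positivity
    rw [hc₃]; linarith
  have hc₃0 : 0 < c₃ := by linarith
  have hc₇0 : 0 < c₇ := by rw [hc₇]; positivity
  have hδ : 0 < (2 - p) / 3 := by linarith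
  obtain ⟨B1, hB1, h1⟩ := big (72 * c * C₀ * (1 + a) + 16 * c₄ + c₇ + c₃) 61 ((2 - p) / 3) hδ
  obtain ⟨B2, hB2, h2⟩ := big ((4 + C₀) * (40000 * C₀ * CH * c₂) * (2880 * c * c₃) +
    1024 * C₀ * CH * c₂) 28 (1 - 2 * ((2 - p) / 3)) (by linarith)
  obtain ⟨B3, hB3, h3⟩ := big ((1 + 2 / ((p - 1) * Real.log 2)) * 165150720) 2 ((p - 1) / 2)
    (by linarith)
  refine ⟨max B1 (max B2 B3), le_trans hB1 (le_max_left _ _), ?_⟩
  intro e R Y β w u q₁ q₂ i₁ i₂ lam hcf1 hcf2 hwu hl0 hl1 hw hu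
  have o1 := one hp1 hp hcf1 hl0 hl1
  have o2 := one hp1 hp hcf2 hl0 hl1
  have h2T : 1 ≤ (2 : ℝ) ^ (sz R Y β) := by
    apply Real.one_le_rpow (by norm_num)
    unfold sz
    positivity
  obtain ⟨X, hX⟩ : ∃ X : ℝ, X = (2 : ℝ) ^ (sz R Y β) / lam := ⟨_, rfl⟩
  rw [← hX] at o1 o2 hw hu
  have hlamX : 1 / lam ≤ X := by
    rw [hX]; gcongr
  have hX1 : 1 ≤ X := by
    refine le_trans ?_ hlamX
    rw [le_div_iff₀ hl0]; linarith
  have hX0 : 0 < X := by linarith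
  have hlam : 1 / X ≤ lam := by
    rw [div_le_iff₀ hl0] at hlamX
    rw [div_le_iff₀ hX0]
    linarith
  have k1 := h1 _ (le_max_left _ _) X _ hX1 hw
  have k2 := h2 _ ((le_max_left _ _).trans (le_max_right _ _)) X _ hX1 hu
  have k3 := h3 _ ((le_max_right _ _).trans (le_max_right _ _)) X _ hX1 hw
  have hwu' : (2 : ℝ) ^ w ≤ 2 ^ u := pow_le_pow_right₀ (by norm_num) hwu.le
  have k4 := h3 _ ((le_max_right _ _).trans (le_max_right _ _)) X _ hX1 (lt_of_lt_of_le hw hwu')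
  rw [ss_eq] at k1
  rw [TWN.D_pow] at k2
  -- `r`
  obtain ⟨n, hn1, hn2⟩ := exists_nat_pow_near (x := 20160 * X) (y := 2) (by linarith)
    (by norm_num)
  obtain ⟨r, hr⟩ : ∃ r : ℕ, r = n + 1 := ⟨_, rfl⟩
  rw [← hr] at hn2
  have hr1 : 20160 * X ≤ 2 ^ r := hn2.le
  have hr2 : (2 : ℝ) ^ r ≤ 40320 * X := by
    rw [hr, pow_succ]; linarith
  have t1 := two hp1 hX1 o1 hr1 hr2 k3
  have t2 := two hp1 hX1 o2 hr1 hr2 k4
  have hL : (2 : ℝ) ^ (r + 7) + 2 ≤ c * X := by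
    have : (2 : ℝ) ^ (r + 7) = 128 * 2 ^ r := by rw [pow_add]; norm_num; ring
    rw [this, hc]; linarith
  have hL1 : 1 ≤ (2 : ℝ) ^ (r + 7) + 2 := by
    have : (0 : ℝ) < 2 ^ (r + 7) := by positivity
    linarith
  have hL0 : 0 < (2 : ℝ) ^ (r + 7) + 2 := by linarith
  -- the bounds of the roots
  have E1 : (A / 2 ^ (q₁ - 6 - r)) ^ (1 / p) ≤ a * X ^ 2 / ss p w := by
    rw [ha]
    refine E_le hp1 hp hA (by norm_num) hX1 (by positivity) w (t1.g2.trans ?_)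
    have : (0 : ℝ) < X ^ 2 * 2 ^ (q₁ - 6 - r) := by positivity
    linarith
  have E1' : (A / 2 ^ (q₁ - 10 - r)) ^ (1 / p) ≤ a * X ^ 2 / ss p w := by
    rw [ha]
    exact E_le hp1 hp hA (by norm_num) hX1 (by positivity) w t1.g3
  have E2 : (A / 2 ^ (q₂ - 6 - r)) ^ (1 / p) ≤ a * X ^ 2 / ss p u := by
    rw [ha]
    refine E_le hp1 hp hA (by norm_num) hX1 (by positivity) u (t2.g2.trans ?_)
    have : (0 : ℝ) < X ^ 2 * 2 ^ (q₂ - 6 - r) := by positivity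
    linarith
  have hs1 := one_le_ss hp2 w
  have hd1 := one_le_ss hp2 (u - w)
  have hsW := ss3_le hp1 w
  have hdD := ss3_le hp1 (u - w)
  have hsu := ss_add (p := p) w u hwu
  have hU : (2 : ℝ) ^ u = 2 ^ w * 2 ^ (u - w) := by
    rw [← pow_add]; congr 1; omega
  have hY1 := pow_neg (p := p) w
  have hY2 := pow_neg (p := p) u
  have hY3 := pow_pos' (p := p) w
  have hY4 := pow_pos' (p := p) u
  rw [hsu, hU] at o2 hY2 hY4
  rw [hsu] at E2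
  have g1' := t2.g1
  rw [hsu, hU] at g1'
  have hyou1 := TWN.you (by have := t1.r1; omega) hX0 hl0 (by positivity) (by linarith)
    (lt_of_lt_of_le (by positivity) o1.mu) o1.qm hr1
  have hyou2 := TWN.you (by have := t2.r1; omega) hX0 hl0 (by positivity)
    (mul_pos (by linarith) (by linarith)) (lt_of_lt_of_le (by positivity) o2.mu) o2.qm hr1
  have hth1 : 0 < th i₁ ∧ th i₁ ≤ 1 := by
    constructor
    · unfold th; positivity
    · unfold th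
      have : (2 : ℝ) ^ (-(i₁ : ℤ)) ≤ 1 := zpow_le_one_of_nonpos₀ (by norm_num) (by omega)
      linarith
  have hth2 : 0 < th i₂ ∧ th i₂ ≤ 1 := by
    constructor
    · unfold th; positivity
    · unfold th
      have : (2 : ℝ) ^ (-(i₂ : ℤ)) ≤ 1 := zpow_le_one_of_nonpos₀ (by norm_num) (by omega)
      linarith
  have hmb1 : 0 < mb i₁ β := by unfold mb; positivity
  have hmb2 : 0 < mb i₂ β := by unfold mb; positivity
  have hM0 : 0 < 64 * C₀ * CH / lam := by positivity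
  have hM : 64 * C₀ * CH / lam ≤ 64 * C₀ * CH * X := by
    rw [div_eq_mul_one_div]; gcongr
  have tr1 := t1.r1
  have tr2 := t2.r1
  have tg1 := t1.g1
  have tz1 := t1.siz
  have tz2 := t2.siz
  have hG1 : (0 : ℝ) < 2 ^ (q₁ - 6 - r) := by positivity
  have hG2 : (0 : ℝ) < 2 ^ (q₂ - 6 - r) := by positivity
  have hE1' : 0 ≤ (A / 2 ^ (q₁ - 10 - r)) ^ (1 / p) := by positivity
  have hE2 : 0 ≤ (A / 2 ^ (q₂ - 6 - r)) ^ (1 / p) := by positivity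
  have hs0 : 0 < ss p w := by linarith
  have hd0 : 0 < ss p (u - w) := by linarith
  have hW0 : (0 : ℝ) < 2 ^ w := by positivity
  have hD0 : (0 : ℝ) < 2 ^ (u - w) := by positivity
  have hD1 : (1 : ℝ) ≤ 2 ^ (u - w) := one_le_pow₀ (by norm_num)
  -- the thresholds
  have hpos : 0 < 72 * c * C₀ * (1 + a) := by positivity
  have kk : ∀ (x : ℝ) (n : ℕ), 0 ≤ x → x ≤ 72 * c * C₀ * (1 + a) + 16 * c₄ + c₇ + c₃ → n ≤ 61 →
      x * X ^ n < ss p w := by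
    intro x n hx0 hx hn
    refine lt_of_le_of_lt ?_ k1
    have : X ^ n ≤ X ^ 61 := pow_le_pow_right₀ hX1 hn
    gcongr
  have b1 := kk (72 * c * C₀ * (1 + a)) 5 hpos.le (by linarith) (by norm_num)
  have b2 := kk (16 * c₄) 19 (by positivity) (by linarith) (by norm_num)
  have b3 := kk c₇ 61 hc₇0.le (by linarith) le_rfl
  have b4 := kk c₃ 10 hc₃0.le (by linarith) (by norm_num)
  have hN : 0 < (4 + C₀) * (40000 * C₀ * CH * c₂) * (2880 * c * c₃) := by positivity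
  have hN' : 0 < 1024 * C₀ * CH * c₂ := by positivity
  have b5 : (4 + C₀) * (40000 * C₀ * CH * c₂) * (2880 * c * c₃) * X ^ 28 <
      (2 : ℝ) ^ (u - w) / ss p (u - w) ^ 2 := by
    refine lt_of_le_of_lt ?_ k2
    gcongr
    linarith
  have hdD1 : ss p (u - w) ≤ 2 ^ (u - w) :=
    (le_self_pow₀ hd1 (by norm_num)).trans hdD
  have b6 : 1024 * C₀ * CH * c₂ * X ^ 14 < ((2 : ℝ) ^ (u - w)) ^ 2 / ss p (u - w) ^ 3 := by
    calc 1024 * C₀ * CH * c₂ * X ^ 14 ≤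
          ((4 + C₀) * (40000 * C₀ * CH * c₂) * (2880 * c * c₃) + 1024 * C₀ * CH * c₂) * X ^ 28 := by
          have : X ^ 14 ≤ X ^ 28 := pow_le_pow_right₀ hX1 (by norm_num)
          gcongr
          linarith
      _ < (2 : ℝ) ^ (u - w) / ss p (u - w) ^ 2 := k2
      _ = (2 : ℝ) ^ (u - w) / ss p (u - w) ^ 2 * 1 := (mul_one _).symm
      _ ≤ (2 : ℝ) ^ (u - w) / ss p (u - w) ^ 2 * ((2 : ℝ) ^ (u - w) / ss p (u - w)) := by
          gcongr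
          exact (one_le_div hd0).2 hdD1
      _ = _ := by field_simp
  have hsW2 : ss p w ^ 2 ≤ 2 ^ w := (pow_le_pow_right₀ hs1 (by norm_num)).trans hsW
  have hsW1 : ss p w ≤ 2 ^ w := (le_self_pow₀ hs1 (by norm_num)).trans hsW
  have hκ : c₃ * X ^ 10 * ss p w / 2 ^ w ≤ 1 := by
    rw [div_le_one hW0]
    calc c₃ * X ^ 10 * ss p w ≤ ss p w * ss p w := by gcongr
      _ = ss p w ^ 2 := by ring
      _ ≤ 2 ^ w := hsW2
  have hcc2 : 36 * c * C₀ ≤ c₂ := by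
    rw [hc₂]
    have e1 : 36 * c * C₀ * 1 ≤ 36 * c * C₀ * (2592 * c ^ 2 * (1 + a)) := by
      have h5 : 1 ≤ 2592 * c ^ 2 * (1 + a) := by
        have h6 : 1 ≤ c ^ 2 := one_le_pow₀ hc1
        have h7 : 1 ≤ 1 + a := by linarith
        calc (1 : ℝ) = 1 * 1 * 1 := by norm_num
          _ ≤ 2592 * c ^ 2 * (1 + a) := by gcongr; norm_num
      exact mul_le_mul_of_nonneg_left h5 (by positivity)
    calc 36 * c * C₀ = 36 * c * C₀ * 1 := (mul_one _).symm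
      _ ≤ _ := e1
      _ = _ := by ring
  have hcc3 : (4 + C₀) * (64 * C₀ * CH) < c₃ := by rw [hc₃]; linarith
  have hcc3a : 64 * C₀ * CH ≤ c₃ := by
    refine le_trans ?_ hcc3.le
    have : 0 < 64 * C₀ * CH := by positivity
    calc 64 * C₀ * CH = 1 * (64 * C₀ * CH) := (one_mul _).symm
      _ ≤ _ := by gcongr; linarith
  have hcc3b : 16 * (1260 * C₀ * (1 + a) * (64 * C₀ * CH) * c₂) ≤ c₃ := by
    rw [← hc₄, hc₃]
    have : 0 < (4 + C₀) * (64 * C₀ * CH) := by positivity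
    linarith
  rw [hc₄] at b2
  rw [hc₇] at b3
  have ob := o1.tb
  have omu := o1.mu
  have ob2 := o2.tb
  have oa2 := o2.ta
  have omu2 := o2.mu
  have oq2 := o2.qa
  have hq2 : (0 : ℝ) < 2 ^ q₂ := by positivity
  refine ⟨r, 64 * C₀ * CH / lam, ss p w ^ 3 / ((2 ^ w) ^ 2 * X ^ 13 * c₂),
    c₃ * X ^ 10 * ss p w / 2 ^ w, ?_⟩
  refine { r1 := ⟨tr1, tr2⟩
           th1 := ⟨hth1.1, hth1.2, hth2.1, hth2.2, hmb1, hmb2⟩
           pos := ⟨hl0, hl1, hM0, by positivity, by positivity, hκ, hA, hH⟩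
           sur := ?_
           you := ?_
           siz := ⟨tz1, tz2⟩
           spd := ?_
           spa := ?_
           sep := ?_
           kap := ?_
           inn := ?_
           out := ?_
           fin := ?_ }
  · apply le_of_eq
    field_simp
  · constructor
    · rw [hY1]; exact hyou1
    · rw [hY2, hU]; exact hyou2
  · exact TWN.spd hX1 hlam hc1 hC₀ hs1 hsW2 ob hL0 hL hcc2
  · rw [hY3]
    exact TWN.spa hX1 hlam hc1 hC₀ ha0 hs1 hsW1 ob hL0 hL E1 omu hG1 tg1 hc₂.ge b1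
  · rw [hY2]
    exact TWN.sep hX1 hC₀ hH hs0 hW0 hd0 hD0 hc₂0 hM b6
  · rw [hY1]
    exact TWN.kap hX1 hC₀ hH hs0 hsW2 hM hcc3
  · rw [hY1, hY2, hU]
    exact TWN.inn hX1 hlam hC₀ hH ha0 hs1 hsW1 hd0 hD1 hM0 hM oq2 omu2 E1' hE1' hc₂0 hcc3a hcc3b
      b2.le
  · constructor
    · rw [hY2]
      exact TWN.out1 hX1 hlam hc1 hs0 hW0 hC₀ hH hM hc₂0 hd0 hD0 hc₃0 hL0 hL ob2 b5
    · exact TWN.out2 hX1 hl0 hl1 hs0 hW0 hd0 hdD1 hc₃1 hL1 hth2.1 oa2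
  · rw [hY1, hY2, hY4, hU]
    exact TWN.fin hX1 hlam hc1 hs1 hsW1 ha0 hC₀ hH hM0 hM hc₂0 hd1 hdD1 hc₃0 hL0 hL ob2 omu2 E2 hE2
      hG2 g1' b3

end Pool.Agent.Helper78.ES
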